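import Pool.Agent.helper81.CW.Spec1

/-! # Project cw (MP_447e26_gt): U5 -/

open MeasureTheory Set
open scoped ENNReal

namespace Pool.Agent.helper81.CW

theorem U5 : U5_stmt := by
  intro κ γ q hγ hq hqk
  have hD : 0 ≤ κ - γ := hq.trans hqk
  have hx : q ^ 2 ≤ (κ - γ) ^ 2 := pow_le_pow_left₀ hq hqk 2
  have h1 : (κ + γ) ^ 2 ≤ max ((κ + γ) ^ 2) (8 * γ ^ 2) := le_max_left _ _
  have h2 : 8 * γ ^ 2 ≤ max ((κ + γ) ^ 2) (8 * γ ^ 2) := le_max_right _ _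
  generalize max ((κ + γ) ^ 2) (8 * γ ^ 2) = B at h1 h2
  rcases hD.eq_or_lt with h0 | h0
  · have hq0 : q = 0 := le_antisymm (by linarith) hq
    have hk : κ = γ := by linarith
    subst hq0 hk
    ring_nf
    exact le_refl _
  · have hD2 : 0 < (κ - γ) ^ 2 := by positivity
    have hq2 : 0 ≤ q ^ 2 := sq_nonneg q
    refine le_of_mul_le_mul_left ?_ hD2
    have e : (κ - γ) ^ 2 * ((κ ^ 2 - γ ^ 2 - q ^ 2) ^ 2 + 4 * γ ^ 2 * q ^ 2) =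
        ((κ - γ) ^ 2 - q ^ 2) * ((κ - γ) ^ 2 * (κ + γ) ^ 2) + q ^ 2 * ((κ - γ) ^ 2 * (8 * γ ^ 2))
          - q ^ 2 * (κ - γ) ^ 2 * ((κ - γ) ^ 2 - q ^ 2) := by ring
    rw [e]
    have a1 : ((κ - γ) ^ 2 - q ^ 2) * ((κ - γ) ^ 2 * (κ + γ) ^ 2) ≤
        ((κ - γ) ^ 2 - q ^ 2) * ((κ - γ) ^ 2 * B) :=
      mul_le_mul_of_nonneg_left (mul_le_mul_of_nonneg_left h1 hD2.le) (by linarith)
    have a2 : q ^ 2 * ((κ - γ) ^ 2 * (8 * γ ^ 2)) ≤ q ^ 2 * ((κ - γ) ^ 2 * B) :=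
      mul_le_mul_of_nonneg_left (mul_le_mul_of_nonneg_left h2 hD2.le) hq2
    have a3 : 0 ≤ q ^ 2 * (κ - γ) ^ 2 * ((κ - γ) ^ 2 - q ^ 2) :=
      mul_nonneg (mul_nonneg hq2 hD2.le) (by linarith)
    have e2 : (κ - γ) ^ 2 * ((κ - γ) ^ 2 * B) = ((κ - γ) ^ 2 - q ^ 2) * ((κ - γ) ^ 2 * B) +
        q ^ 2 * ((κ - γ) ^ 2 * B) := by ring
    rw [e2]
    linarith

end Pool.Agent.helper81.CW
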