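import Pool.Agent.helper81.CW.Spec1

/-! # Project cw (MP_447e26_gt): V2 -/

open MeasureTheory Set
open scoped ENNReal

namespace Pool.Agent.helper81.CW

/-- volume of a ball in coordinates -/
theorem V2_ball (ι : Type) [Fintype ι] (r : ℝ) (hr : 0 ≤ r) :
    volume {u : ι → ℝ | ∑ i, u i ^ 2 ≤ r ^ 2} =
      ENNReal.ofReal (kap (Fintype.card ι) * r ^ (Fintype.card ι)) := by
  rcases isEmpty_or_nonempty ι with hι | hι
  · have h1 : {u : ι → ℝ | ∑ i, u i ^ 2 ≤ r ^ 2} = univ := by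
      ext u
      simp only [mem_ofPred_eq, mem_univ, iff_true, Finset.univ_eq_empty, Finset.sum_empty]
      positivity
    rw [h1, Measure.volume_pi_eq_dirac (0 : ι → ℝ)]
    simp [kap]
  · have h1 : {u : ι → ℝ | ∑ i, u i ^ 2 ≤ r ^ 2} =
        (fun u : ι → ℝ => (WithLp.toLp 2 u : EuclideanSpace ℝ ι)) ⁻¹' Metric.closedBall 0 r := by
      ext u
      simp only [mem_ofPred_eq, mem_preimage, Metric.mem_closedBall, dist_zero_right,
        EuclideanSpace.norm_eq, Real.norm_eq_abs, sq_abs]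
      rw [Real.sqrt_le_iff]
      exact ⟨fun h => ⟨hr, h⟩, fun h => h.2⟩
    rw [h1, (PiLp.volume_preserving_toLp ι).measure_preimage
      Metric.isClosed_closedBall.measurableSet.nullMeasurableSet,
      EuclideanSpace.volume_closedBall, ← ENNReal.ofReal_pow hr,
      ← ENNReal.ofReal_mul (by positivity), kap, mul_comm]

theorem V2_volp {n : ℕ} (P Q : ℝ) (hP : 0 ≤ P) (hQ : 0 ≤ Q) (p : Fin n → Prop) [DecidablePred p] :
    volume {z : Fin n → ℝ | ∑ i : {i // p i}, z i ^ 2 ≤ Q ^ 2 ∧ ∑ i : {i // ¬ p i}, z i ^ 2 ≤ P ^ 2} =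
      ENNReal.ofReal (kap (Fintype.card {i // p i}) * Q ^ (Fintype.card {i // p i})) *
      ENNReal.ofReal (kap (Fintype.card {i // ¬ p i}) * P ^ (Fintype.card {i // ¬ p i})) := by
  have h := volume_preserving_piEquivPiSubtypeProd (fun _ : Fin n => ℝ) p
  have h1 : {z : Fin n → ℝ | ∑ i : {i // p i}, z i ^ 2 ≤ Q ^ 2 ∧ ∑ i : {i // ¬ p i}, z i ^ 2 ≤ P ^ 2} =
      (MeasurableEquiv.piEquivPiSubtypeProd (fun _ : Fin n => ℝ) p) ⁻¹'
      ({u : {i // p i} → ℝ | ∑ i, u i ^ 2 ≤ Q ^ 2} ×ˢ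
        {u : {i // ¬ p i} → ℝ | ∑ i, u i ^ 2 ≤ P ^ 2}) := by
    ext z
    rfl
  rw [h1, h.measure_preimage_equiv, Measure.volume_eq_prod, Measure.prod_prod, V2_ball _ Q hQ,
    V2_ball _ P hP]

/-- product of two balls -/
def V2_B {n : ℕ} (P Q : ℝ) (S : Finset (Fin n)) : Set (Fin n → ℝ) :=
  {z | ∑ i ∈ S, z i ^ 2 ≤ Q ^ 2 ∧ ∑ i ∈ Sᶜ, z i ^ 2 ≤ P ^ 2}

/-- closed orthant -/
def V2_C {n : ℕ} (S : Finset (Fin n)) : Set (Fin n → ℝ) :=
  {z | ∀ i, (i ∈ S → z i ≤ 0) ∧ (i ∉ S → 0 ≤ z i)}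

theorem V2_volB {n : ℕ} (P Q : ℝ) (hP : 0 ≤ P) (hQ : 0 ≤ Q) (S : Finset (Fin n)) :
    volume (V2_B P Q S) =
      ENNReal.ofReal (kap (n - S.card) * kap S.card * P ^ (n - S.card) * Q ^ S.card) := by
  have h2 := V2_volp P Q hP hQ (fun i => i ∈ S)
  have hc1 : Fintype.card {i // i ∈ S} = S.card := by simp
  have hc2 : Fintype.card {i // ¬ i ∈ S} = n - S.card := by
    rw [Fintype.card_subtype_compl, hc1, Fintype.card_fin]
  have hkap : ∀ m : ℕ, 0 ≤ kap m := fun m => by
    unfold kap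
    have : 0 < Real.Gamma ((m : ℝ) / 2 + 1) := Real.Gamma_pos_of_pos (by positivity)
    positivity
  have h3 : volume (V2_B P Q S) = volume {z : Fin n → ℝ | ∑ i ∈ (@Finset.univ {i // i ∈ S}
      (Subtype.fintype fun i => i ∈ S)), z i ^ 2 ≤ Q ^ 2 ∧ ∑ i : {i // ¬ i ∈ S}, z i ^ 2 ≤ P ^ 2} := by
    congr 1
    ext z
    have e1 : ∑ i ∈ S, z i ^ 2 = ∑ i ∈ (@Finset.univ {i // i ∈ S}
      (Subtype.fintype fun i => i ∈ S)), z i ^ 2 :=
      @Finset.sum_subtype _ _ _ (fun i => i ∈ S) (Subtype.fintype fun i => i ∈ S) S (fun _ => Iff.rfl) (fun i => z i ^ 2)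
    have e2 : ∑ i ∈ Sᶜ, z i ^ 2 = ∑ i : {i // ¬ i ∈ S}, z i ^ 2 :=
      Finset.sum_subtype Sᶜ (fun _ => Finset.mem_compl) (fun i => z i ^ 2)
    simp only [V2_B, mem_ofPred_eq]
    rw [e1, e2]
  have hc1' : @Fintype.card {i // i ∈ S} (Subtype.fintype fun i => i ∈ S) = S.card := by
    exact @Fintype.card_of_subtype _ (fun i => i ∈ S) S (fun _ => Iff.rfl) (Subtype.fintype fun i => i ∈ S)
  rw [h3, h2, hc1', hc2, ← ENNReal.ofReal_mul (mul_nonneg (hkap _) (pow_nonneg hQ _))]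
  congr 1
  ring

theorem V2_measB {n : ℕ} (P Q : ℝ) (S : Finset (Fin n)) : MeasurableSet (V2_B P Q S) := by
  have h1 : MeasurableSet {z : Fin n → ℝ | ∑ i ∈ S, z i ^ 2 ≤ Q ^ 2} :=
    measurableSet_le (by fun_prop) measurable_const
  have h2 : MeasurableSet {z : Fin n → ℝ | ∑ i ∈ Sᶜ, z i ^ 2 ≤ P ^ 2} :=
    measurableSet_le (by fun_prop) measurable_const
  exact h1.inter h2

theorem V2_measC {n : ℕ} (S : Finset (Fin n)) : MeasurableSet (V2_C S) := by
  have h : V2_C S = ⋂ i : Fin n, {z : Fin n → ℝ | (i ∈ S → z i ≤ 0) ∧ (i ∉ S → 0 ≤ z i)} := by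
    ext z
    simp [V2_C]
  rw [h]
  refine MeasurableSet.iInter fun i => ?_
  by_cases hi : i ∈ S
  · simp only [hi, forall_const, not_true, false_implies, and_true]
    exact measurableSet_le (by fun_prop) measurable_const
  · simp only [hi, false_implies, not_false_iff, forall_const, true_and]
    exact measurableSet_le measurable_const (by fun_prop)

/-- reflection -/
theorem V2_refl {n : ℕ} (P Q : ℝ) (S T : Finset (Fin n)) :
    volume (V2_B P Q S ∩ V2_C T) = volume (V2_B P Q S ∩ V2_C S) := by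
  let f : Fin n → ℝ → ℝ := fun i t => if (i ∈ S ↔ i ∈ T) then t else -t
  have hf : ∀ i, MeasurePreserving (f i) := by
    intro i
    by_cases h : (i ∈ S ↔ i ∈ T)
    · have e : f i = id := by
        funext t
        simp [f, h]
      rw [e]
      exact MeasurePreserving.id _
    · have e : f i = fun t => -t := by
        funext t
        simp [f, h]
      rw [e]
      exact Measure.measurePreserving_neg _
  have hmp : MeasurePreserving (fun (z : Fin n → ℝ) (i : Fin n) => f i (z i)) := volume_preserving_pi hf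
  have hpre : V2_B P Q S ∩ V2_C T = (fun (z : Fin n → ℝ) (i : Fin n) => f i (z i)) ⁻¹'
      (V2_B P Q S ∩ V2_C S) := by
    have hsq : ∀ (i : Fin n) (t : ℝ), f i t ^ 2 = t ^ 2 := by
      intro i t
      by_cases h : (i ∈ S ↔ i ∈ T)
      · simp [f, h]
      · simp [f, h]
    ext z
    simp only [mem_inter_iff, mem_preimage, V2_B, V2_C, mem_ofPred_eq, hsq]
    refine and_congr_right fun _ => forall_congr' fun i => ?_
    by_cases hS : i ∈ S <;> by_cases hT : i ∈ T <;> simp [f, hS, hT]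
  rw [hpre, hmp.measure_preimage ((V2_measB P Q S).inter (V2_measC S)).nullMeasurableSet]

theorem V2_half {n : ℕ} (P Q : ℝ) (S : Finset (Fin n)) :
    volume (V2_B P Q S) ≤ 2 ^ n * volume (V2_B P Q S ∩ V2_C S) := by
  have hcov : V2_B P Q S ⊆ ⋃ T ∈ (Finset.univ : Finset (Finset (Fin n))), V2_B P Q S ∩ V2_C T := by
    intro z hz
    simp only [mem_iUnion]
    refine ⟨Finset.univ.filter (fun i => z i ≤ 0), Finset.mem_univ _, hz, ?_⟩
    intro i
    simp only [Finset.mem_filter, Finset.mem_univ, true_and, not_le]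
    exact ⟨fun h => h, fun h => h.le⟩
  calc volume (V2_B P Q S) ≤ volume (⋃ T ∈ (Finset.univ : Finset (Finset (Fin n))), V2_B P Q S ∩ V2_C T) :=
        measure_mono hcov
    _ ≤ ∑ T ∈ (Finset.univ : Finset (Finset (Fin n))), volume (V2_B P Q S ∩ V2_C T) :=
        measure_biUnion_finset_le _ _
    _ = ∑ T ∈ (Finset.univ : Finset (Finset (Fin n))), volume (V2_B P Q S ∩ V2_C S) :=
        Finset.sum_congr rfl (fun T _ => V2_refl P Q S T)
    _ = 2 ^ n * volume (V2_B P Q S ∩ V2_C S) := by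
        rw [Finset.sum_const, Finset.card_univ, Fintype.card_finset, Fintype.card_fin, nsmul_eq_mul]
        push_cast
        rfl

theorem V2 : V2_stmt := by
  intro n P Q hP hQ hPQ
  -- M in coordinates
  let M' : Set (Fin n → ℝ) := {z | ∑ i, z i ^ 2 + Real.sqrt 2 * Real.sqrt (∑ i, (min (z i) 0) ^ 2) ≤ 1 / 2}
  have hMv : volume (M n) = volume M' := by
    have h1 : M n = (fun z : E n => (WithLp.ofLp z : Fin n → ℝ)) ⁻¹' M' := by
      ext z
      simp only [M, M', mem_ofPred_eq, mem_preimage, nn, EuclideanSpace.norm_sq_eq,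
        Real.norm_eq_abs, sq_abs]
    have hmeas : MeasurableSet M' := measurableSet_le (by fun_prop) measurable_const
    rw [h1, (PiLp.volume_preserving_ofLp (Fin n)).measure_preimage hmeas.nullMeasurableSet]
  -- inclusion
  have hsub : ∀ S : Finset (Fin n), V2_B P Q S ∩ V2_C S ⊆ M' := by
    rintro S z ⟨⟨h1, h2⟩, h3⟩
    have e1 : ∑ i, z i ^ 2 = ∑ i ∈ S, z i ^ 2 + ∑ i ∈ Sᶜ, z i ^ 2 :=
      (Finset.sum_add_sum_compl S (fun i => z i ^ 2)).symm
    have e2 : ∑ i, (min (z i) 0) ^ 2 = ∑ i ∈ S, z i ^ 2 := by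
      rw [← Finset.sum_add_sum_compl S (fun i => (min (z i) 0) ^ 2)]
      have a1 : ∑ i ∈ S, (min (z i) 0) ^ 2 = ∑ i ∈ S, z i ^ 2 := by
        refine Finset.sum_congr rfl fun i hi => ?_
        rw [min_eq_left ((h3 i).1 hi)]
      have a2 : ∑ i ∈ Sᶜ, (min (z i) 0) ^ 2 = 0 := by
        refine Finset.sum_eq_zero fun i hi => ?_
        rw [min_eq_right ((h3 i).2 (Finset.mem_compl.1 hi))]
        ring
      rw [a1, a2, add_zero]
    show ∑ i, z i ^ 2 + Real.sqrt 2 * Real.sqrt (∑ i, (min (z i) 0) ^ 2) ≤ 1 / 2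
    rw [e2, e1]
    have h4 : Real.sqrt (∑ i ∈ S, z i ^ 2) ≤ Q := Real.sqrt_le_iff.2 ⟨hQ, h1⟩
    have h5 : Real.sqrt 2 * Real.sqrt (∑ i ∈ S, z i ^ 2) ≤ Real.sqrt 2 * Q :=
      mul_le_mul_of_nonneg_left h4 (Real.sqrt_nonneg 2)
    linarith
  -- a.e. disjoint
  have hdisj : Set.Pairwise (↑(Finset.univ : Finset (Finset (Fin n))) : Set (Finset (Fin n)))
      (Function.onFun (AEDisjoint volume) (fun S => V2_B P Q S ∩ V2_C S)) := by
    intro S _ T _ hST
    have hex : ∃ i : Fin n, (V2_B P Q S ∩ V2_C S) ∩ (V2_B P Q T ∩ V2_C T) ⊆ {z | z i = 0} := by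
      by_contra hno
      push Not at hno
      apply hST
      ext i
      by_contra hi
      have : (V2_B P Q S ∩ V2_C S) ∩ (V2_B P Q T ∩ V2_C T) ⊆ {z | z i = 0} := by
        rintro z ⟨⟨_, hzS⟩, ⟨_, hzT⟩⟩
        show z i = 0
        by_cases hiS : i ∈ S
        · have hiT : i ∉ T := fun h => hi ⟨fun _ => h, fun _ => hiS⟩
          exact le_antisymm ((hzS i).1 hiS) ((hzT i).2 hiT)
        · have hiT : i ∈ T := by
            by_contra h
            exact hi ⟨fun h' => absurd h' hiS, fun h' => absurd h' h⟩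
          exact le_antisymm ((hzT i).1 hiT) ((hzS i).2 hiS)
      exact hno i this
    obtain ⟨i, hi⟩ := hex
    refine measure_mono_null hi ?_
    exact Measure.pi_hyperplane (fun _ : Fin n => (volume : Measure ℝ)) i 0
  have hkap : ∀ m : ℕ, 0 ≤ kap m := fun m => by
    unfold kap
    have : 0 < Real.Gamma ((m : ℝ) / 2 + 1) := Real.Gamma_pos_of_pos (by positivity)
    positivity
  -- the sum over the subsets
  have hsum : ∑ k ∈ Finset.range (n + 1), (n.choose k : ℝ) * (1 / 2) ^ n * kap (n - k) * kap k *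
      P ^ (n - k) * Q ^ k = ∑ S ∈ (Finset.univ : Finset (Fin n)).powerset,
        (1 / 2) ^ n * (kap (n - S.card) * kap S.card * P ^ (n - S.card) * Q ^ S.card) := by
    rw [Finset.sum_powerset_apply_card
      (fun k => (1 / 2) ^ n * (kap (n - k) * kap k * P ^ (n - k) * Q ^ k)), Finset.card_univ,
      Fintype.card_fin]
    refine Finset.sum_congr rfl fun k _ => ?_
    rw [nsmul_eq_mul]
    ring
  rw [hsum, Finset.powerset_univ, ENNReal.ofReal_sum_of_nonneg (fun S _ => by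
    have := hkap (n - S.card)
    have := hkap S.card
    positivity), hMv]
  calc ∑ S : Finset (Fin n), ENNReal.ofReal ((1 / 2) ^ n *
        (kap (n - S.card) * kap S.card * P ^ (n - S.card) * Q ^ S.card))
      ≤ ∑ S : Finset (Fin n), volume (V2_B P Q S ∩ V2_C S) := by
        refine Finset.sum_le_sum fun S _ => ?_
        rw [ENNReal.ofReal_mul (by positivity), ← V2_volB P Q hP hQ S]
        calc ENNReal.ofReal ((1 / 2) ^ n) * volume (V2_B P Q S)
            ≤ ENNReal.ofReal ((1 / 2) ^ n) * (2 ^ n * volume (V2_B P Q S ∩ V2_C S)) := by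
              gcongr
              exact V2_half P Q S
          _ = volume (V2_B P Q S ∩ V2_C S) := by
              rw [← mul_assoc]
              have : ENNReal.ofReal ((1 / 2) ^ n) * 2 ^ n = 1 := by
                have h2 : (2 : ℝ≥0∞) ^ n = ENNReal.ofReal (2 ^ n) := by
                  rw [ENNReal.ofReal_pow (by norm_num)]
                  simp
                rw [h2, ← ENNReal.ofReal_mul (by positivity), ← mul_pow]
                norm_num
              rw [this, one_mul]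
    _ = volume (⋃ S ∈ (Finset.univ : Finset (Finset (Fin n))), V2_B P Q S ∩ V2_C S) := by
        rw [measure_biUnion_finset₀ hdisj
          (fun S _ => ((V2_measB P Q S).inter (V2_measC S)).nullMeasurableSet)]
    _ ≤ volume M' := by
        apply measure_mono
        intro z hz
        simp only [mem_iUnion] at hz
        obtain ⟨S, _, hS⟩ := hz
        exact hsub S hS

end Pool.Agent.helper81.CW
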